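import Mathlib
import Pool.Agent.W329.AR.Uten

/-!
# Direct sums of tensors: rank of the Kronecker powers

`dsum V W` is the direct sum of the tensors `V` and `W`. If `W` is a catalyst in the sense of
`Cat` (uniform bounds for the ranks of `V' ⊠ W^{⊠ N}`), then the direct sum of any concise tensor
`V` of size `v` and `W` has minimal asymptotic rank as soon as the size of `W` is at least `2 v^3`.
-/

set_option autoImplicit false
set_option linter.unusedSectionVars false

open Finset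

namespace Pool.Agent.TH671.AS

open Pool.Agent.W329.AR

section defs

variable {K : Type*} {ι κ : Type*}

/-- Direct sum of two tensors. -/
def dsum [Zero K] (V : ι → ι → ι → K) (W : κ → κ → κ → K) : ι ⊕ κ → ι ⊕ κ → ι ⊕ κ → K
  | Sum.inl a, Sum.inl b, Sum.inl c => V a b c
  | Sum.inr a, Sum.inr b, Sum.inr c => W a b c
  | _, _, _ => 0

/-- The two parts of the direct sum. -/
def pt [Zero K] (V : ι → ι → ι → K) (W : κ → κ → κ → K) : Bool → ι ⊕ κ → ι ⊕ κ → ι ⊕ κ → K
  | true, Sum.inl a, Sum.inl b, Sum.inl c => V a b c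
  | false, Sum.inr a, Sum.inr b, Sum.inr c => W a b c
  | _, _, _, _ => 0

theorem dsum_eq_pt [Semiring K] (V : ι → ι → ι → K) (W : κ → κ → κ → K) (a b c : ι ⊕ κ) :
    dsum V W a b c = ∑ s : Bool, pt V W s a b c := by
  rw [Fintype.sum_bool]
  rcases a with a | a <;> rcases b with b | b <;> rcases c with c | c <;> simp [dsum, pt]

end defs

section ring

variable {K : Type*} [CommRing K]

theorem Rk.kmul' {α β γ α' β' γ' : Type*} {T : α → β → γ → K} {T' : α' → β' → γ' → K} {r r' : ℕ}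
    (h : Rk T r) (h' : Rk T' r') : Rk (kmul T T') (r * r') := by
  obtain ⟨u, v, w, h⟩ := h
  obtain ⟨u', v', w', h'⟩ := h'
  have := Rk.of_fintype (κ := Fin r × Fin r') (T := kmul T T')
    (fun l a => u l.1 a.1 * u' l.2 a.2) (fun l a => v l.1 a.1 * v' l.2 a.2)
    (fun l a => w l.1 a.1 * w' l.2 a.2) (fun a b c => by
      unfold kmul
      rw [h, h', Finset.sum_mul_sum, Fintype.sum_prod_type]
      exact Finset.sum_congr rfl fun i _ => Finset.sum_congr rfl fun j _ => by ring)
  simpa using this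

/-- the trivial bound for the rank -/
theorem Rk.triv {α β γ : Type*} [Fintype α] [Fintype β] [DecidableEq α] [DecidableEq β]
    (T : α → β → γ → K) : Rk T (Fintype.card α * Fintype.card β) := by
  have := Rk.of_fintype (κ := α × β) (T := T) (fun l a => if a = l.1 then 1 else 0)
    (fun l b => if b = l.2 then 1 else 0) (fun l c => T l.1 l.2 c) (fun a b c => by
      rw [Fintype.sum_prod_type]
      simp)
  simpa using this

theorem rst_pt_true {ι κ : Type*} [Fintype ι] [DecidableEq ι] [DecidableEq κ]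
    (V : ι → ι → ι → K) (W : κ → κ → κ → K) :
    Rst (pt V W true) V := by
  refine ⟨fun a i => if a = Sum.inl i then 1 else 0, fun a i => if a = Sum.inl i then 1 else 0,
    fun a i => if a = Sum.inl i then 1 else 0, fun a b c => ?_⟩
  rcases a with a | a <;> rcases b with b | b <;> rcases c with c | c <;>
    simp [pt, ite_mul, mul_ite, Finset.sum_ite_eq]

theorem rst_pt_false {ι κ : Type*} [Fintype κ] [DecidableEq ι] [DecidableEq κ]
    (V : ι → ι → ι → K) (W : κ → κ → κ → K) :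
    Rst (pt V W false) W := by
  refine ⟨fun a i => if a = Sum.inr i then 1 else 0, fun a i => if a = Sum.inr i then 1 else 0,
    fun a i => if a = Sum.inr i then 1 else 0, fun a b c => ?_⟩
  rcases a with a | a <;> rcases b with b | b <;> rcases c with c | c <;>
    simp [pt, ite_mul, mul_ite, Finset.sum_ite_eq]

/-- number of letters `true` -/
def tr {N : ℕ} (w : Fin N → Bool) : ℕ := (univ.filter fun t => w t = true).card

theorem tr_le {N : ℕ} (w : Fin N → Bool) : tr w ≤ N := by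
  have := Finset.card_le_univ (univ.filter fun t => w t = true)
  simpa [tr] using this

theorem word_rk {ι κ : Type*} [Fintype ι] [Fintype κ] [DecidableEq ι] [DecidableEq κ]
    (V : ι → ι → ι → K) (W : κ → κ → κ → K) {N : ℕ} (w : Fin N → Bool) {r : ℕ}
    (h : Rk (kmul (kpow V (tr w)) (kpow W (N - tr w))) r) :
    Rk (fun (a b c : Fin N → ι ⊕ κ) => ∏ t, pt V W (w t) (a t) (b t) (c t)) r := by
  classical
  have h1 : Rst (kmul (kpow (pt V W true) (tr w)) (kpow (pt V W false) (N - tr w)))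
      (kmul (kpow V (tr w)) (kpow W (N - tr w))) :=
    ((rst_pt_true V W).pow _).mul ((rst_pt_false V W).pow _)
  have h2 := h1.toRk h
  have c1 : Fintype.card {t // w t = true} = tr w := by
    rw [Fintype.card_subtype]; rfl
  have c2 : Fintype.card {t // ¬ w t = true} = N - tr w := by
    have := Fintype.card_subtype_compl (fun t => w t = true)
    rw [this, c1, Fintype.card_fin]
  let e1 : Fin (tr w) ≃ {t // w t = true} := (Fintype.equivFinOfCardEq c1).symm
  let e2 : Fin (N - tr w) ≃ {t // ¬ w t = true} := (Fintype.equivFinOfCardEq c2).symm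
  let φ : (Fin N → ι ⊕ κ) → (Fin (tr w) → ι ⊕ κ) × (Fin (N - tr w) → ι ⊕ κ) :=
    fun a => (fun s => a (e1 s), fun s => a (e2 s))
  refine (h2.comp φ φ φ).congr fun a b c => ?_
  simp only [kmul, kpow, φ]
  rw [← Fintype.prod_subtype_mul_prod_subtype (fun t => w t = true)
    (fun t => pt V W (w t) (a t) (b t) (c t))]
  congr 1
  · rw [← Equiv.prod_comp e1]
    refine Finset.prod_congr rfl fun s _ => ?_
    rw [(e1 s).2]
  · rw [← Equiv.prod_comp e2]
    refine Finset.prod_congr rfl fun s _ => ?_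
    have : w (e2 s) = false := by simpa using (e2 s).2
    rw [this]

/-- Rank of the powers of a direct sum. -/
theorem dsum_pow_rk {ι κ : Type*} [Fintype ι] [Fintype κ] [DecidableEq ι] [DecidableEq κ]
    (V : ι → ι → ι → K) (W : κ → κ → κ → K) (N : ℕ) (r : (Fin N → Bool) → ℕ)
    (h : ∀ w : Fin N → Bool, Rk (kmul (kpow V (tr w)) (kpow W (N - tr w))) (r w)) :
    Rk (kpow (dsum V W) N) (∑ w : Fin N → Bool, r w) := by
  classical
  have h1 := Rk.sum univ (fun (w : Fin N → Bool) (a b c : Fin N → ι ⊕ κ) =>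
    ∏ t, pt V W (w t) (a t) (b t) (c t)) r (fun w _ => word_rk V W w (h w))
  refine h1.congr fun a b c => ?_
  unfold kpow
  rw [Finset.prod_congr rfl fun t _ => dsum_eq_pt V W (a t) (b t) (c t), Finset.prod_univ_sum,
    Fintype.piFinset_univ]

/-- Catalysts, with uniform bounds. -/
def Cat {κ : Type*} (W : κ → κ → κ → K) (m C : ℕ) : Prop :=
  ∀ (N ν : ℕ) (α : Type) [Fintype α] [DecidableEq α] (V : α → α → α → K), Fintype.card α = ν →
    1 ≤ ν → ν ≤ 2 ^ N → Rk (kmul V (kpow W N)) (C * (N + 1) ^ 3 * (ν * m ^ N))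

theorem prod_word {N : ℕ} (w : Fin N → Bool) (v m : ℕ) :
    ∏ t, (if w t = true then v else m) = v ^ tr w * m ^ (N - tr w) := by
  classical
  rw [Finset.prod_ite, Finset.prod_const, Finset.prod_const]
  congr 2
  have h1 := Finset.card_filter_add_card_filter_not (s := (univ : Finset (Fin N)))
    (fun t => w t = true)
  simp only [Finset.card_univ, Fintype.card_fin] at h1
  unfold tr
  omega

theorem sum_word (N v m : ℕ) :
    ∑ w : Fin N → Bool, v ^ tr w * m ^ (N - tr w) = (v + m) ^ N := by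
  classical
  have h1 : ∀ w : Fin N → Bool, v ^ tr w * m ^ (N - tr w) =
      ∏ t, (fun s : Bool => if s = true then v else m) (w t) := fun w => (prod_word w v m).symm
  rw [Finset.sum_congr rfl fun w _ => h1 w]
  have h2 := Finset.prod_univ_sum (R := ℕ) (ι := Fin N) (fun _ => (Finset.univ : Finset Bool))
    (fun _ s => (fun s : Bool => if s = true then v else m) s)
  rw [Fintype.piFinset_univ] at h2
  rw [← h2]
  simp

theorem num_bad {v m N j : ℕ} (hm : 2 * v ^ 3 ≤ m) (hj : j ≤ N) (hbad : 2 ^ (N - j) < v ^ j) :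
    2 ^ N * (v ^ j * v ^ j * m ^ (N - j)) ≤ m ^ N := by
  have h1 : 2 ^ N = 2 ^ (N - j) * 2 ^ j := by rw [← pow_add]; congr 1; omega
  have h2 : m ^ N = m ^ j * m ^ (N - j) := by rw [← pow_add]; congr 1; omega
  calc 2 ^ N * (v ^ j * v ^ j * m ^ (N - j))
      = 2 ^ (N - j) * (2 ^ j * (v ^ j * v ^ j)) * m ^ (N - j) := by rw [h1]; ring
    _ ≤ v ^ j * (2 ^ j * (v ^ j * v ^ j)) * m ^ (N - j) := by
        gcongr
    _ = (2 * v ^ 3) ^ j * m ^ (N - j) := by
        rw [mul_pow, ← pow_mul, mul_comm 3 j, pow_mul]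
        ring
    _ ≤ m ^ j * m ^ (N - j) := by gcongr
    _ = m ^ N := h2.symm

/-- The rank of the powers of `V ⊕ W` for a catalyst `W`. -/
theorem dsum_cat_rk {ι κ : Type} [Fintype ι] [Fintype κ] [DecidableEq ι] [DecidableEq κ]
    (V : ι → ι → ι → K) (W : κ → κ → κ → K) {v m C : ℕ} (hv : Fintype.card ι = v)
    (hv1 : 1 ≤ v) (hW : Cat W m C) (hm : 2 * v ^ 3 ≤ m) (N : ℕ) :
    Rk (kpow (dsum V W) N) (2 * C * (N + 1) ^ 3 * (v + m) ^ N) := by
  classical
  set c := C * (N + 1) ^ 3 with hc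
  have hcm : ∀ L ≤ N, C * (L + 1) ^ 3 ≤ c := fun L hL => by
    rw [hc]; gcongr
  set good : (Fin N → Bool) → Prop := fun w => v ^ tr w ≤ 2 ^ (N - tr w) with hgood
  set r : (Fin N → Bool) → ℕ := fun w => if good w then c * (v ^ tr w * m ^ (N - tr w))
    else c * (v ^ tr w * v ^ tr w * m ^ (N - tr w)) with hr
  have hrk : ∀ w : Fin N → Bool, Rk (kmul (kpow V (tr w)) (kpow W (N - tr w))) (r w) := by
    intro w
    have hcV : Fintype.card (Fin (tr w) → ι) = v ^ tr w := by simp [hv]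
    by_cases hw : good w
    · have h1 := hW (N - tr w) (v ^ tr w) (Fin (tr w) → ι) (kpow V (tr w)) hcV
        (Nat.one_le_pow _ _ hv1) hw
      refine h1.mono ?_
      simp only [hr, if_pos hw]
      exact Nat.mul_le_mul_right _ (hcm _ (Nat.sub_le _ _))
    · have h1 := hW (N - tr w) 1 (Fin 1) (fun _ _ _ => 1) (by simp) le_rfl
        (Nat.one_le_pow _ _ (by norm_num))
      have h2 : Rk (kpow W (N - tr w)) (C * (N - tr w + 1) ^ 3 * (1 * m ^ (N - tr w))) := by
        refine (h1.comp (fun a => ((0 : Fin 1), a)) (fun a => ((0 : Fin 1), a))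
          (fun a => ((0 : Fin 1), a))).congr fun a b c => ?_
        simp [kmul]
      have h3 := Rk.kmul' (Rk.triv (kpow V (tr w))) h2
      refine h3.mono ?_
      simp only [hr, if_neg hw]
      rw [hcV]
      have := hcm _ (Nat.sub_le N (tr w))
      calc v ^ tr w * v ^ tr w * (C * (N - tr w + 1) ^ 3 * (1 * m ^ (N - tr w)))
          ≤ v ^ tr w * v ^ tr w * (c * (1 * m ^ (N - tr w))) := by gcongr
        _ = _ := by ring
  refine (dsum_pow_rk V W N r hrk).mono ?_
  have hsplit : ∀ w, r w ≤ c * (v ^ tr w * m ^ (N - tr w)) +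
      (if good w then 0 else c * (v ^ tr w * v ^ tr w * m ^ (N - tr w))) := by
    intro w
    simp only [hr]
    split_ifs
    · simp
    · exact Nat.le_add_left _ _
  have hbad : ∑ w : Fin N → Bool,
      (if good w then 0 else c * (v ^ tr w * v ^ tr w * m ^ (N - tr w))) ≤ c * m ^ N := by
    have h2N : 0 < 2 ^ N := by positivity
    refine Nat.le_of_mul_le_mul_left ?_ h2N
    rw [Finset.mul_sum]
    calc ∑ w : Fin N → Bool,
          2 ^ N * (if good w then 0 else c * (v ^ tr w * v ^ tr w * m ^ (N - tr w)))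
        ≤ ∑ _w : Fin N → Bool, c * m ^ N := by
          refine Finset.sum_le_sum fun w _ => ?_
          split_ifs with hw
          · simp
          · have hw' : 2 ^ (N - tr w) < v ^ tr w := not_le.1 hw
            have := num_bad hm (tr_le w) hw'
            calc 2 ^ N * (c * (v ^ tr w * v ^ tr w * m ^ (N - tr w)))
                = c * (2 ^ N * (v ^ tr w * v ^ tr w * m ^ (N - tr w))) := by ring
              _ ≤ c * m ^ N := Nat.mul_le_mul_left _ this
      _ = 2 ^ N * (c * m ^ N) := by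
          rw [Finset.sum_const, smul_eq_mul]
          simp
  calc ∑ w : Fin N → Bool, r w
      ≤ ∑ w : Fin N → Bool, (c * (v ^ tr w * m ^ (N - tr w)) +
        (if good w then 0 else c * (v ^ tr w * v ^ tr w * m ^ (N - tr w)))) :=
        Finset.sum_le_sum fun w _ => hsplit w
    _ = c * (v + m) ^ N + ∑ w : Fin N → Bool,
        (if good w then 0 else c * (v ^ tr w * v ^ tr w * m ^ (N - tr w))) := by
        rw [Finset.sum_add_distrib, ← Finset.mul_sum, sum_word]
    _ ≤ c * (v + m) ^ N + c * m ^ N := Nat.add_le_add_left hbad _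
    _ ≤ c * (v + m) ^ N + c * (v + m) ^ N := by
        gcongr
        omega
    _ = _ := by rw [hc]; ring

end ring

section field

variable {K : Type*} [Field K]

theorem Conc.dsum {ι κ : Type*} [Fintype ι] [Fintype κ] [DecidableEq ι] [DecidableEq κ]
    {V : ι → ι → ι → K} {W : κ → κ → κ → K} (hV : Conc V) (hW : Conc W) : Conc (dsum V W) := by
  have key : ∀ (F : ι → ι × ι → K) (G : κ → κ × κ → K) (H : ι ⊕ κ → (ι ⊕ κ) × (ι ⊕ κ) → K),
      LinearIndependent K F → LinearIndependent K G →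
      (∀ a (q : ι × ι), H (Sum.inl a) (Sum.inl q.1, Sum.inl q.2) = F a q) →
      (∀ a (q : κ × κ), H (Sum.inr a) (Sum.inr q.1, Sum.inr q.2) = G a q) →
      (∀ a (q : κ × κ), H (Sum.inl a) (Sum.inr q.1, Sum.inr q.2) = 0) →
      (∀ a (q : ι × ι), H (Sum.inr a) (Sum.inl q.1, Sum.inl q.2) = 0) →
      LinearIndependent K H := by
    intro F G H hF hG h1 h2 h3 h4
    rw [Fintype.linearIndependent_iff] at hF hG ⊢
    intro g hg
    have e1 := hF (fun a => g (Sum.inl a)) (by
      funext q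
      have := congrFun hg (Sum.inl q.1, Sum.inl q.2)
      simpa [Finset.sum_apply, h1, h4] using this)
    have e2 := hG (fun a => g (Sum.inr a)) (by
      funext q
      have := congrFun hg (Sum.inr q.1, Sum.inr q.2)
      simpa [Finset.sum_apply, h2, h3] using this)
    rintro (a | a)
    · exact e1 a
    · exact e2 a
  exact ⟨key _ _ _ hV.x hW.x (fun _ _ => rfl) (fun _ _ => rfl) (fun _ _ => rfl) (fun _ _ => rfl),
    key _ _ _ hV.y hW.y (fun _ _ => rfl) (fun _ _ => rfl) (fun _ _ => rfl) (fun _ _ => rfl),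
    key _ _ _ hV.z hW.z (fun _ _ => rfl) (fun _ _ => rfl) (fun _ _ => rfl) (fun _ _ => rfl)⟩

/-- **Additive catalysis.** -/
theorem arank_dsum {ι κ : Type} [Fintype ι] [Fintype κ] [DecidableEq ι] [DecidableEq κ]
    {V : ι → ι → ι → K} {W : κ → κ → κ → K} (hV : Conc V) (hW : Conc W) {v m C : ℕ}
    (hv : Fintype.card ι = v) (hv1 : 1 ≤ v) (hκ : Fintype.card κ = m) (hC : Cat W m C)
    (hm : 2 * v ^ 3 ≤ m) : arank (dsum V W) = (v : ℝ) + m := by
  have hcard : Fintype.card (ι ⊕ κ) = v + m := by rw [Fintype.card_sum, hv, hκ]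
  have h1 := arank_eq (Conc.dsum hV hW) (2 * C * 8) fun n => by
    refine (dsum_cat_rk V W hv hv1 hC hm (n + 1)).mono ?_
    rw [hcard]
    calc 2 * C * (n + 1 + 1) ^ 3 * (v + m) ^ (n + 1)
        ≤ 2 * C * (2 * (n + 1)) ^ 3 * (v + m) ^ (n + 1) := by gcongr; omega
      _ = _ := by ring
  rw [h1, hcard]
  push_cast
  rfl

/-- Tensors of block form are catalysts. -/
theorem cat_block (k : ℕ) (hk : 1 ≤ k) : ∃ p0 : ℕ, ∀ p : ℕ, p0 ≤ p → ∀ m : ℕ,
    m = k * p ^ 2 + k * p → ∀ T T0 : Fin m → Fin m → Fin m → K, BlockForm k p T0 →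
    Rst T T0 → ∃ C : ℕ, Cat T m C := by
  obtain ⟨E, hE, hpar⟩ := exists_params
  obtain ⟨p0, hp0⟩ := hpar k hk
  refine ⟨p0, fun p hp m hm T T0 hT0 hR => ?_⟩
  obtain ⟨_, B, hB, h1, h2, h3⟩ := hp0 p hp
  have hm' : m = k * p + k * p * p := by rw [hm]; ring
  have hm'' : k * p * p + k * p = m := by rw [hm']; ring
  refine ⟨(3 + 2 * 4 ^ B) * (16 * (20 * B + 1) ^ 3), fun N ν α _ _ V hν hν1 hνN => ?_⟩
  have h4 := master (hT0.blk hm') (by simp) V hν hν hν hν1 hk N B E hνN hB hE h1 h2 h3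
  have h5 : Rst (kmul V (kpow T N)) (kmul V (kpow (fun x y z => T0 (pos k p hm' x) (pos k p hm' y)
      (pos k p hm' z)) N)) := (Rst.refl V).mul ((hR.trans (rst_pos T0 hm')).pow N)
  refine (h5.toRk h4).mono ?_
  rw [hm'']
  have hQ : QQ (B * N) ≤ 16 * (20 * B + 1) ^ 3 * (N + 1) ^ 3 := by
    unfold QQ
    calc 16 * (20 * (B * N) + 1) ^ 3 ≤ 16 * ((20 * B + 1) * (N + 1)) ^ 3 := by
          gcongr
          nlinarith
      _ = _ := by ring
  calc (3 + 2 * 4 ^ B) * QQ (B * N) * (ν * m ^ N)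
      ≤ (3 + 2 * 4 ^ B) * (16 * (20 * B + 1) ^ 3 * (N + 1) ^ 3) * (ν * m ^ N) := by gcongr
    _ = _ := by ring

/-- Direct sums with tensors of block form. -/
theorem arank_dsum_block (k : ℕ) (hk : 1 ≤ k) : ∃ p0 : ℕ, ∀ p : ℕ, p0 ≤ p → ∀ m : ℕ,
    m = k * p ^ 2 + k * p → ∀ T T0 : Fin m → Fin m → Fin m → K, Conc T → BlockForm k p T0 →
    Rst T T0 → ∀ (v : ℕ) (V : Fin v → Fin v → Fin v → K), 1 ≤ v → 2 * v ^ 3 ≤ m → Conc V →
      Conc (AS.dsum V T) ∧ arank (AS.dsum V T) = (v : ℝ) + m := by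
  obtain ⟨p0, h0⟩ := cat_block (K := K) k hk
  refine ⟨p0, fun p hp m hm T T0 hT hT0 hR v V hv1 hvm hV => ?_⟩
  obtain ⟨C, hC⟩ := h0 p hp m hm T T0 hT0 hR
  exact ⟨Conc.dsum hV hT, arank_dsum hV hT (by simp) hv1 (by simp) hC hvm⟩

end field

end Pool.Agent.TH671.AS
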