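import Mathlib
import Pool.Agent.TH671.AS.Sum

/-!
# The asymptotic rank conjecture and additivity of the asymptotic rank

Classes of supports closed under direct sums; the equivalence of the minimality of the asymptotic
rank of all concise tensors of a class with the additivity of the asymptotic rank, with its
multiplicativity, and with the closure of the set of tensors of minimal asymptotic rank under direct
summands or under factors.
-/

set_option autoImplicit false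
set_option linter.unusedSectionVars false

open Finset

namespace Pool.Agent.TH671.AS

open Pool.Agent.W329.AR

/-- disjoint union of two supports -/
def sumS {ι κ : Type} (S : ι → ι → ι → Prop) (S' : κ → κ → κ → Prop) :
    ι ⊕ κ → ι ⊕ κ → ι ⊕ κ → Prop
  | Sum.inl a, Sum.inl b, Sum.inl c => S a b c
  | Sum.inr a, Sum.inr b, Sum.inr c => S' a b c
  | _, _, _ => False

/-- closure under disjoint unions -/
def SumCl (𝒞 : SC) : Prop :=
  ∀ (ι κ : Type) [Fintype ι] [Fintype κ] (S : ι → ι → ι → Prop) (S' : κ → κ → κ → Prop),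
    𝒞.P ι S → 𝒞.P κ S' → 𝒞.P (ι ⊕ κ) (sumS S S')

theorem exists_bound2 {ι κ : Type} [Fintype ι] [Fintype κ] (α : ι → ℤ) (β : κ → ℤ) :
    ∃ L : ℤ, ∀ i j, |α i| + |β j| < L := by
  refine ⟨(∑ i, |α i|) + (∑ j, |β j|) + 1, fun i j => ?_⟩
  have h1 : |α i| ≤ ∑ i, |α i| :=
    Finset.single_le_sum (f := fun i => |α i|) (fun _ _ => abs_nonneg _) (Finset.mem_univ i)
  have h2 : |β j| ≤ ∑ j, |β j| :=
    Finset.single_le_sum (f := fun i => |β i|) (fun _ _ => abs_nonneg _) (Finset.mem_univ j)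
  linarith

theorem elim_inj {ι κ : Type} {α : ι → ℤ} {β : κ → ℤ} (h : Function.Injective α)
    (h' : Function.Injective β) {s : ℤ} (hs : ∀ i j, |α i| + |β j| < |s|) :
    Function.Injective (Sum.elim α (fun j => β j + s)) := by
  have key : ∀ i j, α i ≠ β j + s := by
    intro i j hij
    have h1 := hs i j
    have h2 : s = α i - β j := by linarith
    have h3 : |s| ≤ |α i| + |β j| := by
      rw [h2]
      exact abs_sub _ _
    linarith
  rintro (a | a) (b | b) hab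
  · exact congrArg _ (h hab)
  · exact absurd hab (key a b)
  · exact absurd hab.symm (key b a)
  · exact congrArg _ (h' (by simpa using hab))

theorem tight_sum : SumCl tightC := by
  rintro ι κ _ _ S S' ⟨α, β, γ, h1, h2, h3, h4⟩ ⟨α', β', γ', h1', h2', h3', h4'⟩
  obtain ⟨L1, hL1⟩ := exists_bound2 α α'
  obtain ⟨L2, hL2⟩ := exists_bound2 β β'
  obtain ⟨L3, hL3⟩ := exists_bound2 γ γ'
  set L := max (max L1 L2) (max L3 0) with hL
  have hL0 : 0 ≤ L := (le_max_right _ _).trans (le_max_right _ _)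
  have a1 : L1 ≤ L := (le_max_left _ _).trans (le_max_left _ _)
  have a2 : L2 ≤ L := (le_max_right _ _).trans (le_max_left _ _)
  have a3 : L3 ≤ L := (le_max_left _ _).trans (le_max_right _ _)
  refine ⟨Sum.elim α (fun j => α' j + L), Sum.elim β (fun j => β' j + L),
    Sum.elim γ (fun j => γ' j + (-(2 * L))), elim_inj h1 h1' ?_, elim_inj h2 h2' ?_,
    elim_inj h3 h3' ?_, ?_⟩
  · intro i j
    rw [abs_of_nonneg hL0]
    exact (hL1 i j).trans_le a1
  · intro i j
    rw [abs_of_nonneg hL0]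
    exact (hL2 i j).trans_le a2
  · intro i j
    have h0 : (0 : ℤ) ≤ 2 * L := by linarith
    rw [abs_neg, abs_of_nonneg h0]
    have := hL3 i j
    linarith
  · rintro (i | i) (j | j) (k | k) hS
    · exact h4 _ _ _ hS
    all_goals first | exact hS.elim | skip
    have := h4' _ _ _ hS
    simp only [Sum.elim_inr]
    linarith

theorem free_sum : SumCl freeC := by
  rintro ι κ _ _ S S' h h' (i | i) (j | j) (k | k) (i' | i') (j' | j') (k' | k') hS hS'
  all_goals first | exact hS.elim | exact hS'.elim | skip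
  · have := h _ _ _ _ _ _ hS hS'
    simpa using this
  · simp
  · simp
  · have := h' _ _ _ _ _ _ hS hS'
    simpa using this

theorem elim_inj' {ι κ : Type} {f : ι → ℕ} {g : κ → ℕ} (h : Function.Injective f)
    (h' : Function.Injective g) {L : ℕ} (hL : ∀ i, f i < L) :
    Function.Injective (Sum.elim f (fun j => g j + L)) := by
  have key : ∀ i j, f i ≠ g j + L := fun i j hij => by
    have := hL i
    omega
  rintro (a | a) (b | b) hab
  · exact congrArg _ (h hab)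
  · exact absurd hab (key a b)
  · exact absurd hab.symm (key b a)
  · exact congrArg _ (h' (by simpa using hab))

theorem elim_inj'' {ι κ : Type} {f : ι → ℕ} {g : κ → ℕ} (h : Function.Injective f)
    (h' : Function.Injective g) {L : ℕ} (hL : ∀ i, g i < L) :
    Function.Injective (Sum.elim (fun i => f i + L) g) := by
  have key : ∀ i j, f i + L ≠ g j := fun i j hij => by
    have := hL j
    omega
  rintro (a | a) (b | b) hab
  · exact congrArg _ (h (by simpa using hab))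
  · exact absurd hab (key a b)
  · exact absurd hab.symm (key b a)
  · exact congrArg _ (h' hab)

theorem oblique_sum : SumCl obliqueC := by
  rintro ι κ _ _ S S' ⟨f, g, h, h1, h2, h3, h4⟩ ⟨f', g', h', h1', h2', h3', h4'⟩
  obtain ⟨L1, hL1⟩ := exists_bound' f
  obtain ⟨L2, hL2⟩ := exists_bound' g'
  obtain ⟨L3, hL3⟩ := exists_bound' h
  have b1 := hL1 L1 le_rfl
  have b2 := hL2 L2 le_rfl
  have b3 := hL3 L3 le_rfl
  refine ⟨Sum.elim f (fun j => f' j + L1), Sum.elim (fun i => g i + L2) g',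
    Sum.elim h (fun j => h' j + L3), elim_inj' h1 h1' b1, elim_inj'' h2 h2' b2,
    elim_inj' h3 h3' b3, ?_⟩
  rintro (i | i) (j | j) (k | k) (i' | i') (j' | j') (k' | k') s1 s2 l1 l2 l3
  all_goals first | exact s1.elim | exact s2.elim | skip
  · obtain ⟨e1, e2, e3⟩ := h4 _ _ _ _ _ _ s1 s2 l1 (by simpa using l2) l3
    exact ⟨congrArg _ e1, congrArg _ e2, congrArg _ e3⟩
  · simp only [Sum.elim_inl, Sum.elim_inr] at l2
    have := b2 j'
    omega
  · simp only [Sum.elim_inl, Sum.elim_inr] at l1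
    have := b1 i'
    omega
  · obtain ⟨e1, e2, e3⟩ := h4' _ _ _ _ _ _ s1 s2 (by simpa using l1) l2 (by simpa using l3)
    exact ⟨congrArg _ e1, congrArg _ e2, congrArg _ e3⟩

theorem InC.dsum {𝒞 : SC} (hS : SumCl 𝒞) {ι κ : Type} [Fintype ι] [Fintype κ] [DecidableEq ι]
    [DecidableEq κ] {T : ι → ι → ι → ℂ} {T' : κ → κ → κ → ℂ} (h : InC 𝒞 T) (h' : InC 𝒞 T') :
    InC 𝒞 (dsum T T') := by
  obtain ⟨A, B, C, hA, hB, hC, h⟩ := h
  obtain ⟨A', B', C', hA', hB', hC', h'⟩ := h'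
  refine ⟨Matrix.fromBlocks A 0 0 A', Matrix.fromBlocks B 0 0 B', Matrix.fromBlocks C 0 0 C',
    ?_, ?_, ?_, ?_⟩
  · rw [Matrix.det_fromBlocks_zero₂₁]
    exact mul_ne_zero hA hA'
  · rw [Matrix.det_fromBlocks_zero₂₁]
    exact mul_ne_zero hB hB'
  · rw [Matrix.det_fromBlocks_zero₂₁]
    exact mul_ne_zero hC hC'
  · refine 𝒞.mono _ _ _ ?_ (hS _ _ _ _ h h')
    rintro (i | i) (j | j) (l | l) hne
    all_goals simp only [Fintype.sum_sum_type, Matrix.fromBlocks_apply₁₁,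
      Matrix.fromBlocks_apply₁₂, Matrix.fromBlocks_apply₂₁, Matrix.fromBlocks_apply₂₂, AS.dsum,
      Matrix.zero_apply, zero_mul, mul_zero, Finset.sum_const_zero, add_zero, zero_add, ne_eq,
      not_true_eq_false] at hne
    · exact hne
    · exact hne

/-- A class of tensors, closed under Kronecker products, direct sums and reindexing, which contains
the catalysts `U p`. -/
structure TC where
  Q : ∀ {ι : Type} [Fintype ι] [DecidableEq ι], (ι → ι → ι → ℂ) → Prop
  mul : ∀ {ι κ : Type} [Fintype ι] [DecidableEq ι] [Fintype κ] [DecidableEq κ]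
    {T : ι → ι → ι → ℂ} {T' : κ → κ → κ → ℂ}, Q T → Q T' → Q (kmul T T')
  sum : ∀ {ι κ : Type} [Fintype ι] [DecidableEq ι] [Fintype κ] [DecidableEq κ]
    {T : ι → ι → ι → ℂ} {T' : κ → κ → κ → ℂ}, Q T → Q T' → Q (dsum T T')
  equiv : ∀ {ι κ : Type} [Fintype ι] [DecidableEq ι] [Fintype κ] [DecidableEq κ]
    {T : ι → ι → ι → ℂ}, Q T → ∀ e : κ ≃ ι, Q (fun a b c => T (e a) (e b) (e c))
  uniq : ∀ {ι : Type} [Fintype ι] [DecidableEq ι] [Unique ι] (T : ι → ι → ι → ℂ), Q T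
  cat : ∀ p : ℕ, 1 ≤ p → ∀ m : ℕ, m = p ^ 2 + p → Q (U p : Fin m → Fin m → Fin m → ℂ)

/-- the class of all tensors -/
def allT : TC where
  Q := fun _ => True
  mul := fun _ _ => trivial
  sum := fun _ _ => trivial
  equiv := fun _ _ => trivial
  uniq := fun _ => trivial
  cat := fun _ _ _ _ => trivial

/-- classes given by supports -/
def ofSC (𝒞 : SC) (hS : SumCl 𝒞)
    (hT : ∀ (ι : Type) [Fintype ι] (S : ι → ι → ι → Prop), TightS ι S → 𝒞.P ι S) : TC where
  Q := fun T => InC 𝒞 T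
  mul := fun h h' => h.mul h'
  sum := fun h h' => InC.dsum hS h h'
  equiv := fun h e => h.equiv e
  uniq := fun T => InC.uniq T
  cat := fun p hp _ hm => U_inC 𝒞 hT p hp hm

theorem TC.pow (𝒬 : TC) {ι : Type} [Fintype ι] [DecidableEq ι] {T : ι → ι → ι → ℂ} (h : 𝒬.Q T)
    (n : ℕ) : 𝒬.Q (kpow T n) := by
  induction n with
  | zero => exact 𝒬.uniq _
  | succ n ih =>
    have h1 := 𝒬.equiv (𝒬.mul h ih) (Fin.consEquiv (fun _ : Fin (n + 1) => ι)).symm
    have h2 : (fun a b c => kmul T (kpow T n) ((Fin.consEquiv (fun _ : Fin (n + 1) => ι)).symm a)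
        ((Fin.consEquiv (fun _ : Fin (n + 1) => ι)).symm b)
        ((Fin.consEquiv (fun _ : Fin (n + 1) => ι)).symm c)) = kpow T (n + 1) := by
      funext a b c
      simp only [kmul, kpow]
      rw [Fin.prod_univ_succ]
      rfl
    rwa [h2] at h1

theorem Conc.equiv {K : Type*} [Field K] {ι κ : Type*} {T : ι → ι → ι → K} (h : Conc T)
    (e : κ ≃ ι) : Conc (fun a b c => T (e a) (e b) (e c)) := by
  have key : ∀ F : ι → ι × ι → K, LinearIndependent K F →
      LinearIndependent K (fun (a : κ) (q : κ × κ) => F (e a) (e q.1, e q.2)) := by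
    intro F hF
    have h1 : LinearIndependent K (F ∘ e) := hF.comp _ e.injective
    exact h1.map' (LinearMap.funLeft K K (fun q : κ × κ => (e q.1, e q.2)))
      (LinearMap.ker_eq_bot.2 (LinearMap.funLeft_injective_of_surjective _ _ _ (by
        rintro ⟨a, b⟩
        exact ⟨(e.symm a, e.symm b), by simp⟩)))
  exact ⟨key _ h.x, key _ h.y, key _ h.z⟩

/-- the statements -/
def Conj (𝒬 : TC) : Prop :=
  ∀ (m : ℕ) (T : Fin m → Fin m → Fin m → ℂ), 1 ≤ m → Conc T → 𝒬.Q T → arank T = m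

theorem Conj.of_type {𝒬 : TC} (h : Conj 𝒬) {ι : Type} [Fintype ι] [DecidableEq ι]
    (T : ι → ι → ι → ℂ) (hι : 1 ≤ Fintype.card ι) (hT : Conc T) (hQ : 𝒬.Q T) :
    arank T = Fintype.card ι := by
  let e : Fin (Fintype.card ι) ≃ ι := (Fintype.equivFin ι).symm
  have := h (Fintype.card ι) (fun a b c => T (e a) (e b) (e c)) hι (Conc.equiv hT e)
    (𝒬.equiv hQ e)
  rwa [arank_equiv] at this

theorem exists_cat : ∃ p0 : ℕ, 1 ≤ p0 ∧ ∀ p : ℕ, p0 ≤ p → ∀ m : ℕ, m = p ^ 2 + p →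
    Conc (U p : Fin m → Fin m → Fin m → ℂ) ∧ arank (U p : Fin m → Fin m → Fin m → ℂ) = m ∧
    (∀ (v : ℕ) (V : Fin v → Fin v → Fin v → ℂ), 1 ≤ v → 2 * v ^ 3 ≤ m → Conc V →
      Conc (AS.dsum V (U p : Fin m → Fin m → Fin m → ℂ)) ∧
      arank (AS.dsum V (U p : Fin m → Fin m → Fin m → ℂ)) = (v : ℝ) + m) ∧
    ∀ (v n : ℕ) (V : Fin v → Fin v → Fin v → ℂ), 1 ≤ v → v ≤ 2 ^ n → Conc V →
      arank (kmul V (kpow (U p : Fin m → Fin m → Fin m → ℂ) n)) = (v : ℝ) * (m : ℝ) ^ n := by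
  obtain ⟨p0, hp0, h0⟩ := catalyst
  obtain ⟨p1, h1⟩ := arank_dsum_block (K := ℂ) 1 le_rfl
  refine ⟨max p0 p1, hp0.trans (le_max_left _ _), fun p hp m hm => ?_⟩
  obtain ⟨a1, a2, a3⟩ := h0 p ((le_max_left _ _).trans hp) m hm
  refine ⟨a1, a2, fun v V hv hvm hV => ?_, fun v n V hv hvn hV => (a3 v n V hv hvn hV).2⟩
  exact h1 p ((le_max_right _ _).trans hp) m (by simpa using hm) (U p) (U p) a1 (U_block p)
    (Rst.refl _) v V hv hvm hV

/-- **The equivalences.** -/
theorem tfae (𝒬 : TC) : List.TFAE [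
    ∀ (m : ℕ) (T : Fin m → Fin m → Fin m → ℂ), 1 ≤ m → Conc T → 𝒬.Q T → arank T = m,
    ∀ (v w : ℕ) (V : Fin v → Fin v → Fin v → ℂ) (W : Fin w → Fin w → Fin w → ℂ), 1 ≤ v → 1 ≤ w →
      Conc V → Conc W → 𝒬.Q V → 𝒬.Q W → arank (dsum V W) = arank V + arank W,
    ∀ (v w : ℕ) (V : Fin v → Fin v → Fin v → ℂ) (W : Fin w → Fin w → Fin w → ℂ), 1 ≤ v → 1 ≤ w →
      Conc V → Conc W → 𝒬.Q V → 𝒬.Q W → arank (kmul V W) = arank V * arank W,
    ∀ (v w : ℕ) (V : Fin v → Fin v → Fin v → ℂ) (W : Fin w → Fin w → Fin w → ℂ), 1 ≤ v → 1 ≤ w →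
      Conc V → Conc W → 𝒬.Q V → 𝒬.Q W → arank (dsum V W) = (v : ℝ) + w → arank V = v,
    ∀ (v w : ℕ) (V : Fin v → Fin v → Fin v → ℂ) (W : Fin w → Fin w → Fin w → ℂ), 1 ≤ v → 1 ≤ w →
      Conc V → Conc W → 𝒬.Q V → 𝒬.Q W → arank (kmul V W) = (v : ℝ) * w → arank V = v] := by
  obtain ⟨p0, hp0, hcat⟩ := exists_cat
  have hbig : ∀ v : ℕ, 2 * v ^ 3 ≤ (p0 + 2 * v ^ 3) ^ 2 + (p0 + 2 * v ^ 3) := fun v => by
    have : 2 * v ^ 3 ≤ p0 + 2 * v ^ 3 := Nat.le_add_left _ _
    omega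
  tfae_have 1 → 2 := by
    intro h v w V W hv hw hV hW qV qW
    have h1 := Conj.of_type (𝒬 := 𝒬) h (dsum V W) (by simp; omega) (Conc.dsum hV hW)
      (𝒬.sum qV qW)
    rw [h1, h v V hv hV qV, h w W hw hW qW]
    simp
  tfae_have 1 → 3 := by
    intro h v w V W hv hw hV hW qV qW
    have h1 := Conj.of_type (𝒬 := 𝒬) h (kmul V W) (by simp; nlinarith) (hV.kmul hW)
      (𝒬.mul qV qW)
    rw [h1, h v V hv hV qV, h w W hw hW qW]
    simp
  tfae_have 1 → 4 := fun h v w V W hv hw hV hW qV qW _ => h v V hv hV qV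
  tfae_have 1 → 5 := fun h v w V W hv hw hV hW qV qW _ => h v V hv hV qV
  tfae_have 2 → 1 := by
    intro h v V hv hV qV
    obtain ⟨a1, a2, a3, _⟩ := hcat (p0 + 2 * v ^ 3) (Nat.le_add_right _ _) _ rfl
    have h1 := h v _ V _ hv (by omega) hV a1 qV (𝒬.cat _ (by omega) _ rfl)
    rw [(a3 v V hv (hbig v) hV).2, a2] at h1
    linarith
  tfae_have 4 → 1 := by
    intro h v V hv hV qV
    obtain ⟨a1, a2, a3, _⟩ := hcat (p0 + 2 * v ^ 3) (Nat.le_add_right _ _) _ rfl
    exact h v _ V _ hv (by omega) hV a1 qV (𝒬.cat _ (by omega) _ rfl)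
      (a3 v V hv (hbig v) hV).2
  -- the powers of the catalyst, on `Fin`
  have hpow : ∀ (n : ℕ), ∃ (w : ℕ) (W : Fin w → Fin w → Fin w → ℂ), 1 ≤ w ∧ Conc W ∧ 𝒬.Q W ∧
      arank W = w ∧ ∀ (v : ℕ) (V : Fin v → Fin v → Fin v → ℂ), 1 ≤ v → v ≤ 2 ^ n → Conc V →
        arank (kmul V W) = (v : ℝ) * w := by
    intro n
    obtain ⟨a1, a2, _, a4⟩ := hcat p0 le_rfl _ rfl
    set m := p0 ^ 2 + p0 with hm
    have hm1 : 1 ≤ m := by omega
    set U0 : (Fin n → Fin m) → (Fin n → Fin m) → (Fin n → Fin m) → ℂ :=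
      kpow (U p0 : Fin m → Fin m → Fin m → ℂ) n with hU0
    have hcard : Fintype.card (Fin n → Fin m) = m ^ n := by simp
    let e : Fin (m ^ n) ≃ (Fin n → Fin m) := (Fintype.equivFinOfCardEq hcard).symm
    have hmul : ∀ (v : ℕ) (V : Fin v → Fin v → Fin v → ℂ),
        arank (kmul V (fun a b c => U0 (e a) (e b) (e c))) = arank (kmul V U0) := by
      intro v V
      exact arank_equiv (Equiv.prodCongr (Equiv.refl (Fin v)) e) (kmul V U0)
    refine ⟨m ^ n, fun a b c => U0 (e a) (e b) (e c), Nat.one_le_pow _ _ hm1,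
      Conc.equiv (a1.kpow n) e, 𝒬.equiv (𝒬.pow (𝒬.cat p0 hp0 m hm) n) e, ?_, ?_⟩
    · rw [arank_equiv]
      have hV : Conc (fun _ _ _ : Fin 1 => (1 : ℂ)) :=
        ⟨of_linv _ (fun _ _ => 1) (by intro a a'; simp [Subsingleton.elim a a']),
          of_linv _ (fun _ _ => 1) (by intro a a'; simp [Subsingleton.elim a a']),
          of_linv _ (fun _ _ => 1) (by intro a a'; simp [Subsingleton.elim a a'])⟩
      have h1 := a4 1 n (fun _ _ _ => 1) le_rfl (Nat.one_le_pow _ _ (by norm_num)) hV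
      let e' : (Fin 1 × (Fin n → Fin m)) ≃ (Fin n → Fin m) := Equiv.uniqueProd _ _
      have h2 := arank_equiv e' U0
      have h3 : (fun a b c => U0 (e' a) (e' b) (e' c)) =
          kmul (fun _ _ _ : Fin 1 => (1 : ℂ)) U0 := by
        funext a b c
        simp [kmul, e']
      rw [← h2, h3, h1]
      push_cast
      ring
    · intro v V hv hvn hV
      rw [hmul, a4 v n V hv hvn hV]
      push_cast
      ring
  have hlog : ∀ v : ℕ, v ≤ 2 ^ v := fun v => Nat.lt_two_pow_self.le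
  tfae_have 3 → 1 := by
    intro h v V hv hV qV
    obtain ⟨w, W, hw, hW, qW, rW, hcatW⟩ := hpow v
    have h1 := h v w V W hv hw hV hW qV qW
    rw [hcatW v V hv (hlog v) hV, rW] at h1
    have hw0 : (w : ℝ) ≠ 0 := by
      have : (1 : ℝ) ≤ w := by exact_mod_cast hw
      positivity
    exact (mul_right_cancel₀ hw0 h1).symm
  tfae_have 5 → 1 := by
    intro h v V hv hV qV
    obtain ⟨w, W, hw, hW, qW, rW, hcatW⟩ := hpow v
    exact h v w V W hv hw hV hW qV qW (hcatW v V hv (hlog v) hV)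
  tfae_finish

end Pool.Agent.TH671.AS
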